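import Pool.Agent.Helper17.R5.Sheet

/-! # Row BRA (MP_798d7d_nt, rank five) -/

set_option autoImplicit false

namespace Pool.Helper17.R5

theorem bra_lin_add (u t s : V3) : lin u (t + s) = lin u t + lin u s := by
  simp only [lin, Prod.fst_add, Prod.snd_add]
  ring

theorem bra_pol_ev (N : TF) (t s : V3) : pol N t s = ev N (t + s) - ev N t - ev N s := by
  simp only [pol, ev, Prod.fst_add, Prod.snd_add]
  ring

theorem bra_pol_rep {N : TF} {α β γ : V3} (h : Rep N α β γ) (t s : V3) :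
    pol N t s = 2 * lin β t * lin β s - lin α t * lin γ s - lin γ t * lin α s := by
  rw [bra_pol_ev, h (t + s), h t, h s, bra_lin_add, bra_lin_add, bra_lin_add]
  ring

theorem st_BRA : ST_BRA := by
  intro N α β γ h t s l l' m m' h1 h2 h3
  rw [bra_pol_rep h, h t, h s]
  unfold bq
  rw [← h1, ← h3]
  have h4 : lin β t * 2 = l * m' + l' * m := by rw [h2]; ring
  obtain ⟨b, hb⟩ : ∃ b, b = lin β t := ⟨_, rfl⟩
  rw [← hb] at h4 ⊢
  obtain ⟨a', ha⟩ : ∃ b, b = lin α s := ⟨_, rfl⟩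
  obtain ⟨b', hb'⟩ : ∃ b, b = lin β s := ⟨_, rfl⟩
  obtain ⟨c', hc⟩ : ∃ b, b = lin γ s := ⟨_, rfl⟩
  rw [← ha, ← hb', ← hc]
  linear_combination (2 * b' * (l * m * c' + l' * m' * a')
    - a' * c' * (2 * b + (l * m' + l' * m))) * h4

end Pool.Helper17.R5
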