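import Pool.Agent.Helper17.R5.Sheet

/-! # Row NORM (MP_798d7d_nt, rank five) -/

set_option autoImplicit false

namespace Pool.Helper17.R5

theorem st_NORM : ST_NORM := by
  intro la la' lb lb' ha _ hne
  obtain ⟨x, y, hxy⟩ := ha
  obtain ⟨s, hs, hsD⟩ : ∃ s : ℤ, (s = 1 ∨ s = -1) ∧ 0 < s * (la * lb' - la' * lb) := by
    rcases lt_or_gt_of_ne hne with h | h
    · exact ⟨-1, Or.inr rfl, by linarith⟩
    · exact ⟨1, Or.inl rfl, by linarith⟩
  obtain ⟨D, hD⟩ : ∃ D, D = s * (la * lb' - la' * lb) := ⟨_, rfl⟩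
  rw [← hD] at hsD
  obtain ⟨M, hM⟩ : ∃ M, M = s * (x * lb + y * lb') := ⟨_, rfl⟩
  obtain ⟨k, hk⟩ : ∃ k, k = M / D := ⟨_, rfl⟩
  have e : M % D = M - D * k := by
    rw [hk]
    exact Int.emod_def M D
  refine ⟨-la', -x + k * (-la'), la, -y + k * la, s, D, M % D, ?_, by ring, hs, ?_, ?_,
    Int.emod_nonneg _ hsD.ne', Int.emod_lt_of_pos _ hsD⟩
  · linear_combination hxy
  · rw [hD]
    ring
  · rw [e, hM, hD]
    ring

end Pool.Helper17.R5
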