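import Pool.Agent.Helper17.R5.Sheet

/-! # Row SUB (MP_798d7d_nt, rank five) -/

set_option autoImplicit false

namespace Pool.Helper17.R5

theorem sub_lin_comb3 (x y z : ℤ) (α β γ t : V3) :
    lin (x * α.1 + y * β.1 + z * γ.1, x * α.2.1 + y * β.2.1 + z * γ.2.1,
      x * α.2.2 + y * β.2.2 + z * γ.2.2) t = x * lin α t + y * lin β t + z * lin γ t := by
  simp only [lin]
  ring

theorem st_SUB : ST_SUB := by
  intro N α β γ h g11 g12 g21 g22 hg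
  have hD : (g11 * g22 - g12 * g21) ^ 2 = 1 := by rw [hg]; norm_num
  refine ⟨(g11 ^ 2 * α.1 + 2 * g11 * g21 * β.1 + g21 ^ 2 * γ.1,
      g11 ^ 2 * α.2.1 + 2 * g11 * g21 * β.2.1 + g21 ^ 2 * γ.2.1,
      g11 ^ 2 * α.2.2 + 2 * g11 * g21 * β.2.2 + g21 ^ 2 * γ.2.2),
    (g11 * g12 * α.1 + (g11 * g22 + g12 * g21) * β.1 + g21 * g22 * γ.1,
      g11 * g12 * α.2.1 + (g11 * g22 + g12 * g21) * β.2.1 + g21 * g22 * γ.2.1,
      g11 * g12 * α.2.2 + (g11 * g22 + g12 * g21) * β.2.2 + g21 * g22 * γ.2.2),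
    (g12 ^ 2 * α.1 + 2 * g12 * g22 * β.1 + g22 ^ 2 * γ.1,
      g12 ^ 2 * α.2.1 + 2 * g12 * g22 * β.2.1 + g22 ^ 2 * γ.2.1,
      g12 ^ 2 * α.2.2 + 2 * g12 * g22 * β.2.2 + g22 ^ 2 * γ.2.2), ?_, ?_⟩
  · intro t
    rw [sub_lin_comb3, sub_lin_comb3, sub_lin_comb3, h t]
    linear_combination (-(lin β t ^ 2 - lin α t * lin γ t)) * hD
  · intro t
    rw [sub_lin_comb3, sub_lin_comb3, sub_lin_comb3]
    unfold bq
    refine ⟨by ring, by ring, by ring, fun z w => by ring⟩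

end Pool.Helper17.R5
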